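import Mathlib

set_option autoImplicit false

namespace Pool.Agent.W951.CK

open Classical

/-- Index set of the rays: more than continuum many. -/
abbrev I : Type := Set (ℝ × ℝ)

/-- The star: a point is a ray together with a nonnegative number; the centre has index `∅`. -/
structure Star : Type where
  i : I
  t : ℝ
  nonneg : 0 ≤ t
  zero : t = 0 → i = ∅

namespace Star

theorem ext' {x y : Star} (h1 : x.i = y.i) (h2 : x.t = y.t) : x = y := by
  cases x; cases y; simp_all

noncomputable instance : Dist Star := ⟨fun x y => if x.i = y.i then |x.t - y.t| else x.t + y.t⟩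

theorem dist_def (x y : Star) : dist x y = if x.i = y.i then |x.t - y.t| else x.t + y.t := rfl

theorem tri (x y z : Star) : dist x z ≤ dist x y + dist y z := by
  simp only [dist_def]
  have hx := x.nonneg
  have hy := y.nonneg
  have hz := z.nonneg
  by_cases h1 : x.i = y.i
  · by_cases h2 : y.i = z.i
    · rw [if_pos h1, if_pos h2, if_pos (h1.trans h2)]
      exact abs_sub_le _ _ _
    · have h3 : ¬ x.i = z.i := fun h => h2 (h1.symm.trans h)
      rw [if_pos h1, if_neg h2, if_neg h3]
      have := le_abs_self (x.t - y.t)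
      linarith
  · by_cases h2 : y.i = z.i
    · have h3 : ¬ x.i = z.i := fun h => h1 (h.trans h2.symm)
      rw [if_neg h1, if_pos h2, if_neg h3]
      have := neg_abs_le (y.t - z.t)
      linarith
    · rw [if_neg h1, if_neg h2]
      by_cases h3 : x.i = z.i
      · rw [if_pos h3]
        rw [abs_le]
        constructor <;> linarith
      · rw [if_neg h3]
        linarith

noncomputable instance : MetricSpace Star where
  dist_self x := by rw [dist_def]; simp
  dist_comm x y := by
    simp only [dist_def]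
    by_cases h : x.i = y.i
    · rw [if_pos h, if_pos h.symm, abs_sub_comm]
    · rw [if_neg h, if_neg (fun h' => h h'.symm), add_comm]
  dist_triangle := tri
  eq_of_dist_eq_zero := by
    intro x y h
    rw [dist_def] at h
    by_cases h1 : x.i = y.i
    · rw [if_pos h1, abs_eq_zero, sub_eq_zero] at h
      exact ext' h1 h
    · rw [if_neg h1] at h
      have hx := x.nonneg
      have hy := y.nonneg
      have h2 : x.t = 0 := by linarith
      have h3 : y.t = 0 := by linarith
      exact absurd ((x.zero h2).trans (y.zero h3).symm) h1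

/-- The point at distance `t` from the centre on the ray `i` (the centre for `t ≤ 0`). -/
noncomputable def mk' (i : I) (t : ℝ) : Star :=
  if h : 0 < t then ⟨i, t, h.le, fun h' => absurd h' h.ne'⟩ else ⟨∅, 0, le_rfl, fun _ => rfl⟩

noncomputable def org : Star := ⟨∅, 0, le_rfl, fun _ => rfl⟩

theorem mk'_pos (i : I) (t : ℝ) (h : 0 < t) : (mk' i t).i = i ∧ (mk' i t).t = t := by
  rw [mk', dif_pos h]; exact ⟨rfl, rfl⟩

theorem mk'_nonpos (i : I) (t : ℝ) (h : t ≤ 0) : mk' i t = org := by
  rw [mk', dif_neg (not_lt.2 h)]; rfl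

theorem mk'_self (x : Star) : mk' x.i x.t = x := by
  by_cases h : 0 < x.t
  · apply ext'
    · exact (mk'_pos _ _ h).1
    · exact (mk'_pos _ _ h).2
  · have h0 : x.t = 0 := le_antisymm (not_lt.1 h) x.nonneg
    rw [mk'_nonpos _ _ (not_lt.1 h)]
    exact ext' (x.zero h0).symm h0.symm

theorem dist_org (x : Star) : dist x org = x.t := by
  rw [dist_def]
  show (if x.i = ∅ then |x.t - 0| else x.t + 0) = x.t
  split_ifs
  · rw [sub_zero, abs_of_nonneg x.nonneg]
  · rw [add_zero]

theorem mk'_t (i : I) (t : ℝ) (h : 0 ≤ t) : (mk' i t).t = t := by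
  rcases h.lt_or_eq with h | h
  · exact (mk'_pos i t h).2
  · rw [mk'_nonpos i t h.ge, ← h]; rfl

theorem dist_mk'_same (i : I) (s t : ℝ) (hs : 0 ≤ s) (ht : 0 ≤ t) :
    dist (mk' i s) (mk' i t) = |s - t| := by
  rcases hs.lt_or_eq with hs | hs
  · rcases ht.lt_or_eq with ht | ht
    · rw [dist_def, (mk'_pos i s hs).1, (mk'_pos i t ht).1, if_pos rfl, (mk'_pos i s hs).2,
        (mk'_pos i t ht).2]
    · rw [mk'_nonpos i t ht.ge, dist_org, mk'_t i s hs.le, ← ht, sub_zero, abs_of_pos hs]
  · rw [mk'_nonpos i s hs.ge, dist_comm, dist_org, mk'_t i t ht, ← hs, zero_sub, abs_neg,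
      abs_of_nonneg ht]

theorem dist_mk'_ne (i j : I) (hij : i ≠ j) (s t : ℝ) (hs : 0 ≤ s) (ht : 0 ≤ t) :
    dist (mk' i s) (mk' j t) = s + t := by
  rcases hs.lt_or_eq with hs | hs
  · rcases ht.lt_or_eq with ht | ht
    · rw [dist_def, (mk'_pos i s hs).1, (mk'_pos j t ht).1, if_neg hij, (mk'_pos i s hs).2,
        (mk'_pos j t ht).2]
    · rw [mk'_nonpos j t ht.ge, dist_org, mk'_t i s hs.le, ← ht, add_zero]
  · rw [mk'_nonpos i s hs.ge, dist_comm, dist_org, mk'_t j t ht, ← hs, zero_add]

/-- A Lipschitz path of the interval has small variation. -/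
theorem var_le (γ : unitInterval → Star) (D : ℝ) (hD : 0 ≤ D)
    (h : ∀ u v : unitInterval, dist (γ u) (γ v) ≤ D * |(u : ℝ) - v|) :
    eVariationOn γ Set.univ ≤ ENNReal.ofReal D := by
  have h1 : eVariationOn γ Set.univ ≤
      (D.toNNReal : ENNReal) * eVariationOn (fun u : unitInterval => (u : ℝ)) Set.univ := by
    rw [eVariationOn, eVariationOn, ENNReal.mul_iSup]
    apply iSup_mono
    intro p
    rw [Finset.mul_sum]
    apply Finset.sum_le_sum
    intro k _
    rw [edist_dist, edist_dist, Real.dist_eq, ← ENNReal.ofReal_coe_nnreal, Real.coe_toNNReal D hD,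
      ← ENNReal.ofReal_mul hD]
    exact ENNReal.ofReal_le_ofReal (h _ _)
  have h2 : eVariationOn (fun u : unitInterval => (u : ℝ)) Set.univ ≤ ENNReal.ofReal 1 := by
    have := (MonotoneOn.eVariationOn_eq (f := fun u : unitInterval => (u : ℝ)) (s := Set.univ)
      (a := 0) (b := 1) (fun a _ b _ hab => hab) (Set.mem_univ _) (Set.mem_univ _)).le
    have h3 : (Set.univ ∩ Set.Icc (0 : unitInterval) 1) = Set.univ := by
      ext x
      simp [x.2.1, x.2.2, unitInterval.nonneg', unitInterval.le_one']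
    rw [h3] at this
    simpa using this
  calc eVariationOn γ Set.univ ≤ _ := h1
    _ ≤ (D.toNNReal : ENNReal) * ENNReal.ofReal 1 := by gcongr
    _ = ENNReal.ofReal D := by
      rw [ENNReal.ofReal_one, mul_one]; rfl

theorem length_space (x y : Star) (ε : ℝ) (hε : 0 < ε) : ∃ γ : Path x y,
    eVariationOn (fun t : unitInterval => γ t) Set.univ ≤ ENNReal.ofReal (dist x y + ε) := by
  suffices H : ∃ γ : unitInterval → Star, γ 0 = x ∧ γ 1 = y ∧
      ∀ u v : unitInterval, dist (γ u) (γ v) ≤ dist x y * |(u : ℝ) - v| by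
    obtain ⟨γ, h0, h1, h⟩ := H
    have hc : Continuous γ := by
      have : LipschitzWith (dist x y).toNNReal γ := by
        apply LipschitzWith.of_dist_le_mul
        intro u v
        rw [Real.coe_toNNReal _ dist_nonneg]
        exact h u v
      exact this.continuous
    refine ⟨⟨⟨γ, hc⟩, h0, h1⟩, ?_⟩
    refine (var_le γ (dist x y) dist_nonneg h).trans ?_
    exact ENNReal.ofReal_le_ofReal (by linarith)
  by_cases hij : x.i = y.i
  · have hnn : ∀ u : unitInterval, 0 ≤ (1 - (u : ℝ)) * x.t + u * y.t := by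
      intro u
      have h1 : 0 ≤ 1 - (u : ℝ) := by have := u.2.2; linarith
      have h2 : 0 ≤ (u : ℝ) := u.2.1
      have := x.nonneg
      have := y.nonneg
      positivity
    refine ⟨fun u => mk' x.i ((1 - (u : ℝ)) * x.t + u * y.t), ?_, ?_, ?_⟩
    · simp [mk'_self]
    · simp only [Set.Icc.coe_one, sub_self, zero_mul, one_mul, zero_add]
      rw [hij, mk'_self]
    · intro u v
      rw [dist_mk'_same _ _ _ (hnn u) (hnn v), dist_def, if_pos hij, ← abs_mul]
      apply le_of_eq
      rw [abs_eq_abs]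
      right
      ring
  · set s := x.t with hs
    set t := y.t with ht
    have hs0 : 0 ≤ s := x.nonneg
    have ht0 : 0 ≤ t := y.nonneg
    let r : unitInterval → ℝ := fun u => -s + u * (s + t)
    have hr : ∀ u v : unitInterval, r u - r v = (s + t) * (u - v) := by
      intro u v
      show -s + u * (s + t) - (-s + v * (s + t)) = _
      ring
    refine ⟨fun u => if r u ≤ 0 then mk' x.i (-(r u)) else mk' y.i (r u), ?_, ?_, ?_⟩
    · have h0 : r 0 = -s := by simp [r]
      simp only [h0]
      rw [if_pos (by linarith), neg_neg, hs, mk'_self]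
    · have h1 : r 1 = t := by simp [r]
      simp only [h1]
      by_cases h : t ≤ 0
      · rw [if_pos h, mk'_nonpos _ _ (by linarith)]
        have : t = 0 := le_antisymm h ht0
        rw [← mk'_self y, ← ht, mk'_nonpos _ _ h]
      · rw [if_neg h, ht, mk'_self]
    · intro u v
      have hd : dist x y = s + t := by rw [dist_def, if_neg hij]
      rw [hd]
      have habs : (s + t) * |(u : ℝ) - v| = |r u - r v| := by
        rw [hr, abs_mul, abs_of_nonneg (show (0:ℝ) ≤ s + t by linarith)]
      rw [habs]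
      by_cases h1 : r u ≤ 0
      · by_cases h2 : r v ≤ 0
        · simp only [if_pos h1, if_pos h2]
          rw [dist_mk'_same _ _ _ (by linarith) (by linarith)]
          apply le_of_eq
          rw [abs_eq_abs]
          right; ring
        · simp only [if_pos h1, if_neg h2]
          rw [dist_mk'_ne _ _ hij _ _ (by linarith) (by linarith)]
          have := neg_abs_le (r u - r v)
          linarith
      · by_cases h2 : r v ≤ 0
        · simp only [if_neg h1, if_pos h2]
          rw [dist_mk'_ne _ _ (Ne.symm hij) _ _ (by linarith) (by linarith)]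
          have := le_abs_self (r u - r v)
          linarith
        · simp only [if_neg h1, if_neg h2]
          rw [dist_mk'_same _ _ _ (by linarith) (by linarith)]

/-- The coordinate on the ray `i`. -/
noncomputable def co (i : I) (x : Star) : ℝ := if x.i = i then x.t else 0

theorem co_cont (i : I) : Continuous (co i) := by
  have : LipschitzWith 1 (co i) := by
    apply LipschitzWith.of_dist_le_mul
    intro x y
    rw [NNReal.coe_one, one_mul, Real.dist_eq, dist_def]
    have hx := x.nonneg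
    have hy := y.nonneg
    simp only [co]
    by_cases h1 : x.i = i
    · by_cases h2 : y.i = i
      · rw [if_pos h1, if_pos h2, if_pos (h1.trans h2.symm)]
      · rw [if_pos h1, if_neg h2, if_neg (fun h => h2 (h.symm.trans h1)), sub_zero,
          abs_of_nonneg hx]
        linarith
    · by_cases h2 : y.i = i
      · rw [if_neg h1, if_pos h2, if_neg (fun h => h1 (h.trans h2)), zero_sub, abs_neg,
          abs_of_nonneg hy]
        linarith
      · rw [if_neg h1, if_neg h2, sub_zero, abs_zero]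
        split_ifs
        · exact abs_nonneg _
        · linarith
  exact this.continuous

theorem co_pos_iff (i : I) (x : Star) : 0 < co i x ↔ (x.i = i ∧ 0 < x.t) := by
  simp only [co]
  split_ifs with h
  · simp [h]
  · simp [h]

theorem eq_org_iff (x : Star) : x = org ↔ x.t = 0 := by
  constructor
  · rintro rfl; rfl
  · intro h
    exact ext' (x.zero h) h

/-- A preconnected set without the centre that meets the open ray `i` lies in it. -/
theorem in_ray (B : Set Star) (hB : IsPreconnected B) (h0 : org ∉ B) (i : I) (x : Star)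
    (hx : x ∈ B) (hxi : 0 < co i x) : ∀ y ∈ B, 0 < co i y := by
  by_contra hcon
  push Not at hcon
  obtain ⟨y, hy, hyi⟩ := hcon
  let U : Set Star := {z | 0 < co i z}
  let V : Set Star := ⋃ j ∈ {j : I | j ≠ i}, {z | 0 < co j z}
  have hU : IsOpen U := isOpen_lt continuous_const (co_cont i)
  have hV : IsOpen V := isOpen_biUnion (fun j _ => isOpen_lt continuous_const (co_cont j))
  have hcov : B ⊆ U ∪ V := by
    intro z hz
    have hzt : 0 < z.t := by
      rcases z.nonneg.lt_or_eq with h | h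
      · exact h
      · exact absurd ((eq_org_iff z).2 h.symm ▸ hz) h0
    by_cases h : z.i = i
    · left
      exact (co_pos_iff i z).2 ⟨h, hzt⟩
    · right
      simp only [V, Set.mem_iUnion]
      exact ⟨z.i, h, (co_pos_iff _ z).2 ⟨rfl, hzt⟩⟩
  obtain ⟨z, _, hz1, hz2⟩ := hB U V hU hV hcov ⟨x, hx, hxi⟩
    ⟨y, hy, by
      rcases hcov hy with h | h
      · exact absurd h (not_lt.2 hyi)
      · exact h⟩
  simp only [V, Set.mem_iUnion] at hz2
  obtain ⟨j, hj, hz2⟩ := hz2
  have h1 := ((co_pos_iff i z).1 hz1).1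
  have h2 := ((co_pos_iff j z).1 hz2).1
  exact hj (h2.symm.trans h1)

theorem co_inj (i : I) (x y : Star) (hx : 0 < co i x) (hy : 0 < co i y) (h : co i x = co i y) :
    x = y := by
  have h1 := (co_pos_iff i x).1 hx
  have h2 := (co_pos_iff i y).1 hy
  simp only [co, if_pos h1.1, if_pos h2.1] at h
  exact ext' (h1.1.trans h2.1.symm) h

end Star

/-- The combinatorial core: no fat minor of a graph that has minimum degree two after the loss of
one neighbour. -/
theorem no_minor (V : Type) [Fintype V] (Δ : SimpleGraph V) [Nonempty V]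
    (hdeg : ∀ v a : V, ∃ u w : V, u ≠ w ∧ u ≠ a ∧ w ≠ a ∧ Δ.Adj v u ∧ Δ.Adj v w)
    (B : V → Set Star) (P : V → V → Set Star)
    (hB : ∀ v, IsConnected (B v))
    (hBd : ∀ v v', v ≠ v' → Disjoint (B v) (B v'))
    (hP : ∀ u w, Δ.Adj u w → P u w = P w u ∧
      ∃ g : unitInterval → Star, Continuous g ∧ Function.Injective g ∧
        Set.range g = P u w ∧ g 0 ∈ B u ∧ g 1 ∈ B w ∧
        P u w ∩ (⋃ v, B v) = {g 0, g 1})
    (hPd : ∀ u w u' w', Δ.Adj u w → Δ.Adj u' w' → s(u, w) ≠ s(u', w') →
      Disjoint (P u w) (P u' w')) : False := by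
  classical
  -- for each vertex whose set avoids the centre at most one neighbour is lost
  have key : ∀ v, Star.org ∉ B v → ∃ u w : V, u ≠ w ∧ Δ.Adj v u ∧ Δ.Adj v w ∧
      Star.org ∉ B u ∧ Star.org ∉ B w ∧ Star.org ∉ P v u ∧ Star.org ∉ P v w := by
    intro v hv
    -- the lost neighbour
    have hlost : ∃ a : V, ∀ u, Δ.Adj v u → u ≠ a → Star.org ∉ B u ∧ Star.org ∉ P v u := by
      by_cases h1 : ∃ v0, Star.org ∈ B v0
      · obtain ⟨v0, hv0⟩ := h1
        refine ⟨v0, fun u hvu hu => ?_⟩
        have hBu : Star.org ∉ B u := fun h => (hBd u v0 hu).le_bot ⟨h, hv0⟩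
        refine ⟨hBu, fun hP0 => ?_⟩
        obtain ⟨_, g, _, _, _, hg0, hg1, hg⟩ := hP v u hvu
        have : Star.org ∈ P v u ∩ (⋃ v, B v) := ⟨hP0, Set.mem_iUnion.2 ⟨v0, hv0⟩⟩
        rw [hg] at this
        rcases this with h | h
        · exact hv (h ▸ hg0)
        · exact hBu (h ▸ hg1)
      · push Not at h1
        by_cases h2 : ∃ a, Δ.Adj v a ∧ Star.org ∈ P v a
        · obtain ⟨a, ha, haP⟩ := h2
          refine ⟨a, fun u hvu hu => ⟨h1 u, fun h => ?_⟩⟩
          have hne : s(v, u) ≠ s(v, a) := by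
            intro h
            rw [Sym2.eq_iff] at h
            rcases h with h | h
            · exact hu h.2
            · exact ha.ne h.1
          exact (hPd v u v a hvu ha hne).le_bot ⟨h, haP⟩
        · push Not at h2
          exact ⟨v, fun u hvu _ => ⟨h1 u, h2 u hvu⟩⟩
    obtain ⟨a, ha⟩ := hlost
    obtain ⟨u, w, h1, h2, h3, h4, h5⟩ := hdeg v a
    exact ⟨u, w, h1, h4, h5, (ha u h4 h2).1, (ha w h5 h3).1, (ha u h4 h2).2, (ha w h5 h3).2⟩
  -- a vertex whose set avoids the centre
  have hex : ∃ v, Star.org ∉ B v := by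
    obtain ⟨v⟩ := (inferInstance : Nonempty V)
    by_cases h : Star.org ∈ B v
    · obtain ⟨u, w, h1, h2, h3, h4, h5⟩ := hdeg v v
      exact ⟨u, fun h' => (hBd u v h2).le_bot ⟨h', h⟩⟩
    · exact ⟨v, h⟩
  obtain ⟨v1, hv1⟩ := hex
  choose b hb using fun v => (hB v).nonempty
  -- the ray
  have hbt : 0 < (b v1).t := by
    rcases (b v1).nonneg.lt_or_eq with h | h
    · exact h
    · exact absurd ((Star.eq_org_iff _).2 h.symm ▸ hb v1) hv1
  set i : I := (b v1).i with hi
  have hbi : 0 < Star.co i (b v1) := (Star.co_pos_iff i _).2 ⟨rfl, hbt⟩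
  let S : Finset V := Finset.univ.filter (fun v => Star.org ∉ B v ∧ 0 < Star.co i (b v))
  have hS : S.Nonempty := ⟨v1, by simp only [S, Finset.mem_filter, Finset.mem_univ, true_and]; exact ⟨hv1, hbi⟩⟩
  obtain ⟨v, hvS, hmin⟩ := S.exists_min_image (fun v => Star.co i (b v)) hS
  simp only [S, Finset.mem_filter, Finset.mem_univ, true_and] at hvS hmin
  obtain ⟨u, w, huw, hvu, hvw, hu0, hw0, hPu, hPw⟩ := key v hvS.1
  have hBv : ∀ y ∈ B v, 0 < Star.co i y :=
    Star.in_ray (B v) (hB v).isPreconnected hvS.1 i (b v) (hb v) hvS.2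
  -- the neighbours are on the same ray
  have nb : ∀ u, Δ.Adj v u → Star.org ∉ B u → Star.org ∉ P v u →
      (∀ y ∈ P v u, 0 < Star.co i y) ∧ (∀ y ∈ B u, 0 < Star.co i y) ∧
      IsPreconnected (B v ∪ P v u ∪ B u) := by
    intro u hvu hu0 hPu
    obtain ⟨_, g, hg, _, hrange, hg0, hg1, _⟩ := hP v u hvu
    have hPc : IsPreconnected (P v u) := by
      rw [← hrange]
      exact isPreconnected_range hg
    have m0 : g 0 ∈ P v u := hrange ▸ Set.mem_range_self 0
    have m1 : g 1 ∈ P v u := hrange ▸ Set.mem_range_self 1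
    have hPr := Star.in_ray (P v u) hPc hPu i (g 0) m0 (hBv _ hg0)
    have hBr := Star.in_ray (B u) (hB u).isPreconnected hu0 i (g 1) hg1 (hPr _ m1)
    refine ⟨hPr, hBr, ?_⟩
    have c1 : IsPreconnected (B v ∪ P v u) :=
      IsPreconnected.union (g 0) hg0 m0 (hB v).isPreconnected hPc
    exact IsPreconnected.union (g 1) (Or.inr m1) hg1 c1 (hB u).isPreconnected
  have nu := nb u hvu hu0 hPu
  have nw := nb w hvw hw0 hPw
  have final : ∀ u w, u ≠ w → Δ.Adj v u → Δ.Adj v w →
      (∀ y ∈ B u, 0 < Star.co i y) → (∀ y ∈ P v w, 0 < Star.co i y) →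
      (∀ y ∈ B w, 0 < Star.co i y) → IsPreconnected (B v ∪ P v w ∪ B w) →
      Star.org ∉ B u → Star.co i (b u) ≤ Star.co i (b w) → False := by
    intro u w huw hvu hvw hBu hPw hBw hconn hu0 hle
    have h1 : Star.co i (b v) ≤ Star.co i (b u) := hmin u ⟨hu0, hBu _ (hb u)⟩
    have hint : IsPreconnected (Star.co i '' (B v ∪ P v w ∪ B w)) :=
      hconn.image _ (Star.co_cont i).continuousOn
    have hmem : Star.co i (b u) ∈ Star.co i '' (B v ∪ P v w ∪ B w) := by
      apply hint.Icc_subset (a := Star.co i (b v)) (b := Star.co i (b w))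
      · exact ⟨b v, Or.inl (Or.inl (hb v)), rfl⟩
      · exact ⟨b w, Or.inr (hb w), rfl⟩
      · exact ⟨h1, hle⟩
    obtain ⟨z, hz, hzeq⟩ := hmem
    have hzpos : 0 < Star.co i z := by rw [hzeq]; exact hBu _ (hb u)
    have hzu : z = b u := Star.co_inj i z (b u) hzpos (hBu _ (hb u)) hzeq
    have hzB : z ∈ B u := hzu ▸ hb u
    rcases hz with (hz | hz) | hz
    · exact (hBd v u hvu.ne).le_bot ⟨hz, hzB⟩
    · obtain ⟨_, g, _, _, _, hg0, hg1, hgeq⟩ := hP v w hvw
      have : z ∈ P v w ∩ (⋃ v, B v) := ⟨hz, Set.mem_iUnion.2 ⟨u, hzB⟩⟩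
      rw [hgeq] at this
      rcases this with h | h
      · exact (hBd v u hvu.ne).le_bot ⟨h ▸ hg0, hzB⟩
      · exact (hBd w u huw.symm).le_bot ⟨h ▸ hg1, hzB⟩
    · exact (hBd w u huw.symm).le_bot ⟨hz, hzB⟩
  rcases le_total (Star.co i (b u)) (Star.co i (b w)) with h | h
  · exact final u w huw hvu hvw nu.2.1 nw.1 nw.2.1 nw.2.2 hu0 h
  · exact final w u huw.symm hvw hvu nw.2.1 nu.1 nu.2.1 nu.2.2 hw0 h

theorem deg5 (v a : Fin 5) : ∃ u w : Fin 5, u ≠ w ∧ u ≠ a ∧ w ≠ a ∧
    (⊤ : SimpleGraph (Fin 5)).Adj v u ∧ (⊤ : SimpleGraph (Fin 5)).Adj v w := by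
  revert v a
  simp only [SimpleGraph.top_adj]
  decide

theorem deg33 (v a : Fin 3 ⊕ Fin 3) : ∃ u w : Fin 3 ⊕ Fin 3, u ≠ w ∧ u ≠ a ∧ w ≠ a ∧
    (completeBipartiteGraph (Fin 3) (Fin 3)).Adj v u ∧
    (completeBipartiteGraph (Fin 3) (Fin 3)).Adj v w := by
  revert v a
  simp only [completeBipartiteGraph_adj]
  decide

end Pool.Agent.W951.CK
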